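import Pool.Agent.Helper79.GS.St6

/-!
Project GS (MP_c2d095_lc): module ARE (areas).
-/

set_option autoImplicit false

namespace Pool.Agent.Helper87.GS

open Pool.Agent.Helper79.GS Pool.Agent.Helper19.SK Pool.Agent.Helper73.DC Finset

private theorem col1 (c : Bool) : colN (bn c) = dgt (some c) := by
  cases c <;> simp [colN, bn, dgt]

private theorem col2 (c : Bool) : colN (1 - bn c) = dgt (some (!c)) := by
  cases c <;> simp [colN, bn, dgt]

private theorem dgt_inj {x y : Option Bool} : dgt x = dgt y ↔ x = y := by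
  rcases x with _ | _ | _ <;> rcases y with _ | _ | _ <;> simp [dgt]

open scoped Classical in
/-- ARE. Areas. -/
theorem hARE (hCOD : StCOD) (hTCH : StTCH) : StARE := by
  intro N n hN c P
  obtain ⟨h1, -, -, -⟩ := hCOD n
  obtain ⟨-, h2⟩ := hTCH N n hN
  have hdg := (h1 P).2
  have key : ∀ i : Fin (n * n), (dg 3 (codeB P) i.val = colN (bn c) ∨
      (dg 3 (codeB P) i.val = 0 ∧ tchN N n (codeB P) i.val (colN (bn c)) ∧
        ¬ tchN N n (codeB P) i.val (colN (1 - bn c)))) ↔
      (P (finProdFinEquiv.symm i) = some c ∨ Encl (grid n) P c (finProdFinEquiv.symm i)) := by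
    intro i
    rw [hdg i, col1, col2, dgt_inj, h2, h2]
    have e0 : dgt (P (finProdFinEquiv.symm i)) = 0 ↔ P (finProdFinEquiv.symm i) = none := by
      have : (0 : ℕ) = dgt none := rfl
      rw [this, dgt_inj]
    rw [e0]
    unfold Encl
    simp only [dgt_inj]
    push Not
    rfl
  unfold areaN area
  rw [Finset.sum_range]
  have e1 : ∀ i : Fin (n * n), (if dg 3 (codeB P) i.val = colN (bn c) ∨
      (dg 3 (codeB P) i.val = 0 ∧ tchN N n (codeB P) i.val (colN (bn c)) ∧
        ¬ tchN N n (codeB P) i.val (colN (1 - bn c))) then 1 else 0 : ℕ) =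
      if (P (finProdFinEquiv.symm i) = some c ∨ Encl (grid n) P c (finProdFinEquiv.symm i))
      then 1 else 0 := by
    intro i
    by_cases h : (P (finProdFinEquiv.symm i) = some c ∨
      Encl (grid n) P c (finProdFinEquiv.symm i))
    · rw [if_pos h, if_pos ((key i).mpr h)]
    · rw [if_neg h, if_neg (fun h' => h ((key i).mp h'))]
  rw [Finset.sum_congr rfl (fun i _ => e1 i), ← Finset.card_filter, ← Set.ncard_coe_finset]
  have e2 : ({v | P v = some c ∨ Encl (grid n) P c v} : Set (Fin n × Fin n)) =
      finProdFinEquiv.symm '' (↑(univ.filter (fun i : Fin (n * n) =>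
        P (finProdFinEquiv.symm i) = some c ∨ Encl (grid n) P c (finProdFinEquiv.symm i))) :
        Set (Fin (n * n))) := by
    ext v
    constructor
    · intro hv
      refine ⟨finProdFinEquiv v, ?_, by simp⟩
      rw [Finset.mem_coe, Finset.mem_filter, Equiv.symm_apply_apply]
      exact ⟨mem_univ _, hv⟩
    · rintro ⟨i, hi, rfl⟩
      rw [Finset.mem_coe, Finset.mem_filter] at hi
      exact hi.2
  rw [e2, Set.ncard_image_of_injective _ finProdFinEquiv.symm.injective]

end Pool.Agent.Helper87.GS
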