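import Pool.Agent.Helper79.GS.St4

/-!
Project GS (MP_c2d095_lc): module SPC (recursive procedures of polynomial depth are in PSPACE).
-/

set_option autoImplicit false

namespace Pool.Agent.Helper87.GS

open Pool.Agent.Helper79.GS Pool.Agent.Helper73.DC

/-- case distinction with the classical decision -/
private noncomputable def ci (p : Prop) (a b : ℕ) : ℕ := @ite ℕ p (Classical.propDecidable p) a b

private theorem ci_pos {p : Prop} (h : p) (a b : ℕ) : ci p a b = a := if_pos h
private theorem ci_neg {p : Prop} (h : ¬ p) (a b : ℕ) : ci p a b = b := if_neg h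

private theorem e_ci {α : Type} [Fintype α] {p : List α → (ℕ → ℕ) → Prop} {F G : VF α}
    (hp : E2P p) (hF : E2 F) (hG : E2 G) : E2 (fun w v => ci (p w v) (F w v) (G w v)) :=
  e_ite hp hF hG

/-! ### contexts -/

private theorem e_c1 {α : Type} [Fintype α] {F : VF α} (hF : E2 F) {X : VF α} (hX : E2 X) :
    E2 (fun w v => F w (scons (X w v) zc)) := by
  have h := e_subst hF (σ := fun i => match i with
    | 0 => X
    | _ + 1 => fun _ _ => 0) (by
      intro i
      rcases i with _ | i
      · exact hX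
      · exact e_con 0)
  have e : (fun w v => F w (scons (X w v) zc)) = fun (w : List α) (v : ℕ → ℕ) =>
      F w (fun i => (match i with
        | 0 => X
        | _ + 1 => fun _ _ => 0 : VF α) w v) := by
    funext w v
    congr 1
    funext i
    rcases i with _ | i <;> rfl
  rw [e]
  exact h

private theorem e_c2 {α : Type} [Fintype α] {F : VF α} (hF : E2 F) {X Y : VF α} (hX : E2 X)
    (hY : E2 Y) : E2 (fun w v => F w (scons (X w v) (scons (Y w v) zc))) := by
  have h := e_subst hF (σ := fun i => match i with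
    | 0 => X
    | 1 => Y
    | _ + 2 => fun _ _ => 0) (by
      intro i
      rcases i with _ | _ | i
      · exact hX
      · exact hY
      · exact e_con 0)
  have e : (fun w v => F w (scons (X w v) (scons (Y w v) zc))) = fun (w : List α) (v : ℕ → ℕ) =>
      F w (fun i => (match i with
        | 0 => X
        | 1 => Y
        | _ + 2 => fun _ _ => 0 : VF α) w v) := by
    funext w v
    congr 1
    funext i
    rcases i with _ | _ | i <;> rfl
  rw [e]
  exact h

private theorem e_c3 {α : Type} [Fintype α] {F : VF α} (hF : E2 F) {X Y Z : VF α} (hX : E2 X)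
    (hY : E2 Y) (hZ : E2 Z) :
    E2 (fun w v => F w (scons (X w v) (scons (Y w v) (scons (Z w v) zc)))) := by
  have h := e_subst hF (σ := fun i => match i with
    | 0 => X
    | 1 => Y
    | 2 => Z
    | _ + 3 => fun _ _ => 0) (by
      intro i
      rcases i with _ | _ | _ | i
      · exact hX
      · exact hY
      · exact hZ
      · exact e_con 0)
  have e : (fun w v => F w (scons (X w v) (scons (Y w v) (scons (Z w v) zc)))) =
      fun (w : List α) (v : ℕ → ℕ) =>
      F w (fun i => (match i with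
        | 0 => X
        | 1 => Y
        | 2 => Z
        | _ + 3 => fun _ _ => 0 : VF α) w v) := by
    funext w v
    congr 1
    funext i
    rcases i with _ | _ | _ | i <;> rfl
  rw [e]
  exact h

/-! ### the next code -/

/-- the code of the next state -/
private noncomputable def nx {α : Type} (fin : List α → (ℕ → ℕ) → Prop) (out cal nxt : VF α)
    (w : List α) (N y : ℕ) : ℕ :=
  ci (y % 2 = 0)
    (ci (fin w (scons (y % (2 * N) / 2) (scons N zc)))
      (y / (2 * N) * (2 * N) + (2 * out w (scons (y % (2 * N) / 2) (scons N zc)) + 1))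
      ((y / (2 * N) * (N + 1) + (y % (2 * N) / 2 + 1)) * (2 * N) +
        2 * cal w (scons (y % (2 * N) / 2) (scons N zc))))
    (ci (y / (2 * N) = 0) y
      (y / (2 * N) / (N + 1) * (2 * N) +
        2 * nxt w (scons (y / (2 * N) % (N + 1) - 1) (scons (y % (2 * N) / 2) (scons N zc)))))

private theorem e_nx {α : Type} [Fintype α] {fin : List α → (ℕ → ℕ) → Prop} {out cal nxt : VF α}
    (hfin : E2P fin) (hout : E2 out) (hcal : E2 cal) (hnxt : E2 nxt) {N Y : VF α} (hN : E2 N)
    (hY : E2 Y) : E2 (fun w v => nx fin out cal nxt w (N w v) (Y w v)) := by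
  have h2N : E2 (fun w v => 2 * N w v) := e_mul (e_con 2) hN
  have hx : E2 (fun w v => Y w v % (2 * N w v) / 2) := e_div (e_mod hY h2N) (e_con 2)
  have hS : E2 (fun w v => Y w v / (2 * N w v)) := e_div hY h2N
  have hN1 : E2 (fun w v => N w v + 1) := e_add hN (e_con 1)
  have hf : E2P (fun w v => fin w (scons (Y w v % (2 * N w v) / 2) (scons (N w v) zc))) :=
    e_c2 (F := fun w v => @ite ℕ (fin w v) (Classical.propDecidable _) 1 0) hfin hx hN
  unfold nx
  refine e_ci (e_eq (e_mod hY (e_con 2)) (e_con 0)) ?_ ?_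
  · refine e_ci hf ?_ ?_
    · exact e_add (e_mul hS h2N) (e_add (e_mul (e_con 2) (e_c2 hout hx hN)) (e_con 1))
    · exact e_add (e_mul (e_add (e_mul hS hN1) (e_add hx (e_con 1))) h2N)
        (e_mul (e_con 2) (e_c2 hcal hx hN))
  · refine e_ci (e_eq hS (e_con 0)) hY ?_
    exact e_add (e_mul (e_div hS hN1) h2N)
      (e_mul (e_con 2) (e_c3 hnxt (e_sub (e_mod hS hN1) (e_con 1)) hx hN))

/-! ### codes of the states -/

private def stc (N : ℕ) : List ℕ → ℕ
  | [] => 0
  | g :: st => stc N st * (N + 1) + (g + 1)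

private def cde (N : ℕ) : Bool × ℕ × List ℕ → ℕ
  | (false, x, st) => stc N st * (2 * N) + 2 * x
  | (true, x, st) => stc N st * (2 * N) + (2 * x + 1)

private theorem stc_lt (N : ℕ) : ∀ st : List ℕ, (∀ g ∈ st, g < N) →
    stc N st < (N + 1) ^ st.length
  | [], _ => by simp [stc]
  | g :: st, h => by
    have h1 := stc_lt N st (fun x hx => h x (List.mem_cons_of_mem _ hx))
    have h2 := h g List.mem_cons_self
    rw [stc, List.length_cons, pow_succ]
    have h3 : (stc N st + 1) * (N + 1) ≤ (N + 1) ^ st.length * (N + 1) :=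
      Nat.mul_le_mul_right _ h1
    nlinarith

private theorem cde_lt (N D : ℕ) (b : Bool) (x : ℕ) (st : List ℕ) (hx : x < N)
    (hst : ∀ g ∈ st, g < N) (hl : st.length ≤ D) : cde N (b, x, st) < (N + 1) ^ D * (2 * N) := by
  have h1 := stc_lt N st hst
  have h2 : (N + 1) ^ st.length ≤ (N + 1) ^ D := Nat.pow_le_pow_right (by omega) hl
  have h3 : (stc N st + 1) * (2 * N) ≤ (N + 1) ^ D * (2 * N) :=
    Nat.mul_le_mul_right _ (by omega)
  cases b
  · rw [cde]
    nlinarith
  · rw [cde]
    nlinarith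

private theorem dec1 (N S r : ℕ) (hr : r < 2 * N) : (S * (2 * N) + r) / (2 * N) = S ∧
    (S * (2 * N) + r) % (2 * N) = r := by
  constructor
  · rw [mul_comm, Nat.mul_add_div (by omega), Nat.div_eq_of_lt hr, add_zero]
  · rw [mul_comm, Nat.mul_add_mod, Nat.mod_eq_of_lt hr]

private theorem nx_code {α : Type} (fin : List α → (ℕ → ℕ) → Prop) (out cal nxt : VF α)
    (w : List α) (N : ℕ) (b : Bool) (x : ℕ) (st : List ℕ) (hx : x < N) (hst : ∀ g ∈ st, g < N) :
    nx fin out cal nxt w N (cde N (b, x, st)) =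
      cde N (sstep (fun f => fin w (scons f (scons N zc))) (fun f => out w (scons f (scons N zc)))
        (fun f => cal w (scons f (scons N zc)))
        (fun f u => nxt w (scons f (scons u (scons N zc)))) (b, x, st)) := by
  cases b
  · have hd := dec1 N (stc N st) (2 * x) (by omega)
    have hp : cde N (false, x, st) % 2 = 0 := by
      rw [cde]
      have : stc N st * (2 * N) + 2 * x = 2 * (stc N st * N + x) := by ring
      rw [this]
      exact Nat.mul_mod_right _ _
    have hx' : cde N (false, x, st) % (2 * N) / 2 = x := by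
      rw [cde, hd.2]; omega
    have hS : cde N (false, x, st) / (2 * N) = stc N st := by rw [cde, hd.1]
    unfold nx
    rw [ci_pos hp, hx', hS]
    by_cases hf : fin w (scons x (scons N zc))
    · rw [ci_pos hf, sstep, if_pos hf, cde]
    · rw [ci_neg hf, sstep, if_neg hf, cde, stc]
  · have hd := dec1 N (stc N st) (2 * x + 1) (by omega)
    have hp : ¬ cde N (true, x, st) % 2 = 0 := by
      rw [cde]
      have : stc N st * (2 * N) + (2 * x + 1) = 2 * (stc N st * N + x) + 1 := by ring
      rw [this]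
      omega
    have hx' : cde N (true, x, st) % (2 * N) / 2 = x := by
      rw [cde, hd.2]; omega
    have hS : cde N (true, x, st) / (2 * N) = stc N st := by rw [cde, hd.1]
    unfold nx
    rw [ci_neg hp, hx', hS]
    rcases st with _ | ⟨g, st⟩
    · rw [ci_pos (by rfl), sstep]
    · have hg := hst g List.mem_cons_self
      have h1 : ¬ stc N (g :: st) = 0 := by rw [stc]; omega
      rw [ci_neg h1, sstep, cde]
      have h2 : stc N (g :: st) / (N + 1) = stc N st := by
        rw [stc, mul_comm, Nat.mul_add_div (by omega), Nat.div_eq_of_lt (by omega), add_zero]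
      have h3 : stc N (g :: st) % (N + 1) = g + 1 := by
        rw [stc, mul_comm, Nat.mul_add_mod, Nat.mod_eq_of_lt (by omega)]
      rw [h2, h3]
      rfl

/-! ### the large numbers -/

private theorem nums (ℓ c : ℕ) :
    2 ≤ (ℓ + 2) ^ ((ℓ + 2) ^ c) ∧
    ((ℓ + 2) ^ ((ℓ + 2) ^ c) + 1) ^ ((ℓ + 2) ^ c) * (2 * (ℓ + 2) ^ ((ℓ + 2) ^ c)) ≤
      (ℓ + 2) ^ ((ℓ + 2) ^ (2 * c + 2)) := by
  have hD : 1 ≤ (ℓ + 2) ^ c := Nat.one_le_pow _ _ (by omega)
  have hN : 2 ≤ (ℓ + 2) ^ ((ℓ + 2) ^ c) := by
    calc 2 ≤ (ℓ + 2) ^ 1 := by rw [pow_one]; omega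
      _ ≤ _ := Nat.pow_le_pow_right (by omega) hD
  refine ⟨hN, ?_⟩
  generalize hDe : (ℓ + 2) ^ c = D at hD hN ⊢
  generalize hNe : (ℓ + 2) ^ D = N at hN ⊢
  have h1 : (N + 1) ^ D ≤ N ^ (2 * D) := by
    rw [pow_mul]
    apply Nat.pow_le_pow_left
    nlinarith
  have h2 : 2 * N ≤ N ^ 2 := by nlinarith
  calc (N + 1) ^ D * (2 * N) ≤ N ^ (2 * D) * N ^ 2 := Nat.mul_le_mul h1 h2
    _ = (ℓ + 2) ^ (D * (2 * D + 2)) := by
        rw [← pow_add, ← hNe, ← pow_mul]
    _ ≤ (ℓ + 2) ^ ((ℓ + 2) ^ (2 * c + 2)) := by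
        apply Nat.pow_le_pow_right (by omega)
        have e : (ℓ + 2) ^ (2 * c + 2) = D * (D * (ℓ + 2) ^ 2) := by
          rw [← hDe]; ring
        rw [e]
        apply Nat.mul_le_mul_left
        have h4 : 4 ≤ (ℓ + 2) ^ 2 := by
          calc 4 = 2 ^ 2 := by norm_num
            _ ≤ _ := Nat.pow_le_pow_left (by omega) 2
        have h5 := Nat.mul_le_mul_left D h4
        omega

/-! ### the theorem -/

/-- SPC. Recursive procedures of polynomial depth are in PSPACE. -/
theorem hSPC (hSTK : StSTK) (hSPM : StSPM) : StSPC := by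
  intro α _ fin out cal nxt f0 c L hfin hout hcal hnxt hf0 hN0 hE
  apply hSPM α (2 * c + 2) L
  -- the program
  let Nv : VF α := fun w v => pw (v 0) (w.length + 2) ((w.length + 2) ^ c)
  have hl2 : E2 (α := α) (fun w _ => w.length + 2) := e_add e_len (e_con 2)
  have hNv : E2 Nv := e_pw (e_get 0) hl2 (e_powc hl2 c)
  let Fi : VF α := fun w v => min (2 * f0 w (scons (Nv w v) zc)) (v 0)
  have hFi : E2 Fi := e_min (e_mul (e_con 2) (e_c1 hf0 hNv)) (e_get 0)
  let G : List α → ℕ → ℕ → (ℕ → ℕ) → ℕ := fun w _ r v =>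
    min (nx fin out cal nxt w (Nv w v) r) (v 0)
  have hG : E2 (fun w v => G w (v 0) (v 1) (fun i => v (i + 2))) := by
    have hNv2 : E2 (fun (w : List α) (v : ℕ → ℕ) => Nv w (fun i => v (i + 2))) := by
      show E2 (fun (w : List α) (v : ℕ → ℕ) => pw (v (0 + 2)) (w.length + 2) ((w.length + 2) ^ c))
      exact e_pw (e_get 2) hl2 (e_powc hl2 c)
    exact e_min (e_nx hfin hout hcal hnxt hNv2 (e_get 1)) (e_get 2)
  have hrec := e_rec (F := Fi) (G := G) (H := fun _ v => v 0) (B := fun _ v => v 0) hFi hG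
    (e_get 0) (e_get 0) (by
      intro w v y _
      rcases y with _ | y
      · exact min_le_right _ _
      · exact min_le_right _ _)
  have hF := e_div (e_mod hrec (e_mul (e_con 2) hNv)) (e_con 2)
  refine tTOP _ (fun n => (n + 2) ^ (2 * c + 2)) L hF (e_powc hl2 _) ?_
  intro w
  -- the numbers
  obtain ⟨hN2, hM⟩ := nums w.length c
  set N : ℕ := NN c w with hNdef
  have hNe : (w.length + 2) ^ ((w.length + 2) ^ c) = N := rfl
  set D : ℕ := (w.length + 2) ^ c with hD
  set M : ℕ := (w.length + 2) ^ ((w.length + 2) ^ (2 * c + 2)) with hMdef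
  rw [hNe] at hN2 hM
  set v0 : ℕ → ℕ := scons M (fun _ => 0) with hv0
  have hv00 : v0 0 = M := rfl
  have hNM : N ≤ M := by
    refine le_trans ?_ hM
    have : 1 ≤ (N + 1) ^ D := Nat.one_le_pow _ _ (by omega)
    nlinarith
  have hNvw : Nv w v0 = N := by
    show pw (v0 0) (w.length + 2) D = N
    rw [hv00]
    unfold pw
    rw [hNe]
    omega
  obtain ⟨hf0N, v, hEv, hvL⟩ := hE w
  obtain ⟨hvN, hst⟩ := hSTK _ _ _ _ N (hN0 w) _ _ _ _ hEv hf0N
  obtain ⟨k, hk, hkv, hki⟩ := hst [] (by simp)
  -- the iteration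
  set ss := sstep (fun f => fin w (scons f (scons N zc))) (fun f => out w (scons f (scons N zc)))
    (fun f => cal w (scons f (scons N zc))) (fun f u => nxt w (scons f (scons u (scons N zc))))
    with hss
  set s0 : Bool × ℕ × List ℕ := (false, f0 w (scons N zc), []) with hs0
  have hlt : ∀ i ≤ k, cde N (ss^[i] s0) < M := by
    intro i hi
    obtain ⟨k1, k2, k3⟩ := hki i hi
    have := cde_lt N D (ss^[i] s0).1 (ss^[i] s0).2.1 (ss^[i] s0).2.2 k1 k2 (by simpa using k3)
    exact this.trans_le hM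
  have hit : ∀ i ≤ k, (Nat.rec (Fi w v0) (fun y r => G w y r v0) i : ℕ) = cde N (ss^[i] s0) := by
    intro i
    induction i with
    | zero =>
      intro _
      show min (2 * f0 w (scons (Nv w v0) zc)) (v0 0) = cde N s0
      have h1 := hlt 0 (Nat.zero_le _)
      have h2 : cde N s0 = 2 * f0 w (scons N zc) := by
        rw [hs0, cde, stc]; ring
      have h3 : cde N (ss^[0] s0) = cde N s0 := rfl
      rw [hNvw, hv00, ← h2]
      rw [h3] at h1
      exact min_eq_left h1.le
    | succ i ih =>
      intro hi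
      have h1 := ih (by omega)
      show min (nx fin out cal nxt w (Nv w v0) (Nat.rec (Fi w v0) (fun y r => G w y r v0) i : ℕ))
        (v0 0) = _
      rw [h1, hNvw, hv00]
      obtain ⟨k1, k2, -⟩ := hki i (by omega)
      have h2 := nx_code fin out cal nxt w N (ss^[i] s0).1 (ss^[i] s0).2.1 (ss^[i] s0).2.2 k1 k2
      have h3 : nx fin out cal nxt w N (cde N (ss^[i] s0)) = cde N (ss (ss^[i] s0)) := h2
      have h4 : ss (ss^[i] s0) = ss^[i + 1] s0 := (Function.iterate_succ_apply' ss i s0).symm
      rw [h3, h4]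
      exact min_eq_left (hlt (i + 1) hi).le
  have hend : cde N (true, v, []) = 2 * v + 1 := by rw [cde, stc]; ring
  have hit2 : ∀ i, (Nat.rec (Fi w v0) (fun y r => G w y r v0) (k + i) : ℕ) = 2 * v + 1 := by
    intro i
    induction i with
    | zero =>
      have h1 := hit k le_rfl
      rw [hkv, hend] at h1
      exact h1
    | succ i ih =>
      show min (nx fin out cal nxt w (Nv w v0)
        (Nat.rec (Fi w v0) (fun y r => G w y r v0) (k + i) : ℕ)) (v0 0) = _
      rw [ih, hNvw, hv00]
      have h2 := nx_code fin out cal nxt w N true v [] hvN (by simp)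
      rw [hend] at h2
      rw [h2, sstep, hend]
      have h3 := hlt k le_rfl
      rw [hkv, hend] at h3
      exact min_eq_left h3.le
  have hkM : k ≤ M := by
    refine hk.trans (le_trans ?_ hM)
    have h1 : N ^ D ≤ (N + 1) ^ D := Nat.pow_le_pow_left (by omega) D
    nlinarith
  obtain ⟨i, hi⟩ := Nat.exists_eq_add_of_le hkM
  have hfin1 : (Nat.rec (Fi w v0) (fun y r => G w y r v0) (v0 0) : ℕ) = 2 * v + 1 := by
    rw [hv00, hi]
    exact hit2 i
  show (Nat.rec (Fi w v0) (fun y r => G w y r v0) (v0 0) : ℕ) % (2 * Nv w v0) / 2 ≠ 0 ↔ w ∈ L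
  rw [hfin1, hNvw, ← hvL, Nat.mod_eq_of_lt (by omega)]
  have : (2 * v + 1) / 2 = v := by omega
  rw [this]

end Pool.Agent.Helper87.GS
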